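import Mathlib

open Finset

namespace Pool.Agent.Helper954.InitSum

/-! ### A convergent double sum -/

theorem summable_w : Summable (fun a : ℕ => 1 / ((a : ℝ) * √(a : ℝ))) := by
  have h2 := (Real.summable_one_div_nat_rpow (p := 3 / 2)).2 (by norm_num)
  refine h2.congr ?_
  intro a
  rcases Nat.eq_zero_or_pos a with h0 | h0
  · subst h0; simp
  · have ha : (0 : ℝ) < a := by exact_mod_cast h0
    have : (a : ℝ) ^ ((3 : ℝ) / 2) = a * √a := by
      rw [show (3 : ℝ) / 2 = 1 + 1 / 2 by norm_num, Real.rpow_add ha, Real.rpow_one,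
        Real.sqrt_eq_rpow]
    rw [this]

theorem summable_z : Summable (fun a : ℕ => 1 / ((a : ℝ) ^ 2)) :=
  Real.summable_one_div_nat_pow.2 (by norm_num)

noncomputable def W : ℝ := ∑' a : ℕ, 1 / ((a : ℝ) * √(a : ℝ))

noncomputable def Z : ℝ := ∑' a : ℕ, 1 / ((a : ℝ) ^ 2)

theorem W_nonneg : 0 ≤ W := tsum_nonneg fun _ => by positivity

theorem Z_nonneg : 0 ≤ Z := tsum_nonneg fun _ => by positivity

theorem key_sum (y : ℕ) :
    ∑ p ∈ Ioc 0 y ×ˢ Ioc 0 y,
      (Nat.gcd p.1 p.2 : ℝ) / (((p.1 : ℝ) * √p.1) * ((p.2 : ℝ) * √p.2)) ≤ Z * (W * W) := by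
  classical
  set G : ℕ × ℕ × ℕ → ℝ := fun t =>
    1 / ((t.1 : ℝ) ^ 2) * (1 / ((t.2.1 : ℝ) * √t.2.1) * (1 / ((t.2.2 : ℝ) * √t.2.2))) with hG
  set φ : ℕ × ℕ → ℕ × ℕ × ℕ := fun p =>
    (Nat.gcd p.1 p.2, p.1 / Nat.gcd p.1 p.2, p.2 / Nat.gcd p.1 p.2) with hφ
  have h1 : ∀ p ∈ Ioc 0 y ×ˢ Ioc 0 y,
      (Nat.gcd p.1 p.2 : ℝ) / (((p.1 : ℝ) * √p.1) * ((p.2 : ℝ) * √p.2)) = G (φ p) := by
    rintro ⟨a, b⟩ hp
    simp only [mem_product, mem_Ioc] at hp
    obtain ⟨⟨ha0, hay⟩, ⟨hb0, hby⟩⟩ := hp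
    have hg : 0 < Nat.gcd a b := Nat.gcd_pos_of_pos_left b ha0
    obtain ⟨u, hu⟩ := Nat.gcd_dvd_left a b
    obtain ⟨v, hv⟩ := Nat.gcd_dvd_right a b
    set g := Nat.gcd a b with hgdef
    have hu0 : 0 < u := by
      rcases Nat.eq_zero_or_pos u with h | h
      · subst h; omega
      · exact h
    have hv0 : 0 < v := by
      rcases Nat.eq_zero_or_pos v with h | h
      · subst h; omega
      · exact h
    have hau : a / g = u := by
      conv_lhs => rw [hu]
      exact Nat.mul_div_cancel_left u hg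
    have hbv : b / g = v := by
      conv_lhs => rw [hv]
      exact Nat.mul_div_cancel_left v hg
    have hgR : (0 : ℝ) < g := by exact_mod_cast hg
    have huR : (0 : ℝ) < u := by exact_mod_cast hu0
    have hvR : (0 : ℝ) < v := by exact_mod_cast hv0
    have haR : (a : ℝ) = g * u := by exact_mod_cast hu
    have hbR : (b : ℝ) = g * v := by exact_mod_cast hv
    simp only [hG, hφ]
    rw [← hgdef, hau, hbv, haR, hbR, Real.sqrt_mul hgR.le, Real.sqrt_mul hgR.le]
    have hsg : √(g : ℝ) * √(g : ℝ) = g := Real.mul_self_sqrt hgR.le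
    have hsg0 : 0 < √(g : ℝ) := Real.sqrt_pos.2 hgR
    have hsu0 : 0 < √(u : ℝ) := Real.sqrt_pos.2 huR
    have hsv0 : 0 < √(v : ℝ) := Real.sqrt_pos.2 hvR
    have e1 : (g : ℝ) * u * (√(g : ℝ) * √(u : ℝ)) * (g * v * (√(g : ℝ) * √(v : ℝ))) =
        g ^ 2 * (√(g : ℝ) * √(g : ℝ)) * ((u * √(u : ℝ)) * (v * √(v : ℝ))) := by ring
    rw [e1, hsg]
    field_simp
  have h2 : Set.InjOn φ ((Ioc 0 y ×ˢ Ioc 0 y : Finset (ℕ × ℕ)) : Set (ℕ × ℕ)) := by
    rintro ⟨a, b⟩ _ ⟨a', b'⟩ _ h
    simp only [hφ, Prod.mk.injEq] at h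
    obtain ⟨h1, h2, h3⟩ := h
    have ea : a = Nat.gcd a b * (a / Nat.gcd a b) := (Nat.mul_div_cancel' (Nat.gcd_dvd_left a b)).symm
    have eb : b = Nat.gcd a b * (b / Nat.gcd a b) := (Nat.mul_div_cancel' (Nat.gcd_dvd_right a b)).symm
    have ea' : a' = Nat.gcd a' b' * (a' / Nat.gcd a' b') :=
      (Nat.mul_div_cancel' (Nat.gcd_dvd_left a' b')).symm
    have eb' : b' = Nat.gcd a' b' * (b' / Nat.gcd a' b') :=
      (Nat.mul_div_cancel' (Nat.gcd_dvd_right a' b')).symm
    have haa : a = a' := by rw [ea, ea', h2, h1]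
    have hbb : b = b' := by rw [eb, eb', h3, h1]
    rw [haa, hbb]
  rw [Finset.sum_congr rfl h1, ← Finset.sum_image (f := G) h2]
  have h3 : (Ioc 0 y ×ˢ Ioc 0 y).image φ ⊆ Ioc 0 y ×ˢ (Ioc 0 y ×ˢ Ioc 0 y) := by
    intro t ht
    obtain ⟨⟨a, b⟩, hp, rfl⟩ := Finset.mem_image.1 ht
    simp only [mem_product, mem_Ioc] at hp
    obtain ⟨⟨ha0, hay⟩, ⟨hb0, hby⟩⟩ := hp
    have hg : 0 < Nat.gcd a b := Nat.gcd_pos_of_pos_left b ha0
    simp only [hφ, mem_product, mem_Ioc]
    refine ⟨⟨hg, (Nat.gcd_le_left b ha0).trans hay⟩, ⟨?_, ?_⟩, ⟨?_, ?_⟩⟩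
    · exact Nat.div_pos (Nat.gcd_le_left b ha0) hg
    · exact (Nat.div_le_self _ _).trans hay
    · exact Nat.div_pos (Nat.gcd_le_right a hb0) hg
    · exact (Nat.div_le_self _ _).trans hby
  have hGnn : ∀ t, 0 ≤ G t := fun t => by simp only [hG]; positivity
  refine (Finset.sum_le_sum_of_subset_of_nonneg h3 fun t _ _ => hGnn t).trans ?_
  have h4 : ∑ t ∈ Ioc 0 y ×ˢ (Ioc 0 y ×ˢ Ioc 0 y), G t =
      (∑ g ∈ Ioc 0 y, 1 / ((g : ℝ) ^ 2)) *
        ((∑ u ∈ Ioc 0 y, 1 / ((u : ℝ) * √u)) * (∑ v ∈ Ioc 0 y, 1 / ((v : ℝ) * √v))) := by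
    rw [Finset.sum_mul_sum (Ioc 0 y) (Ioc 0 y), ← Finset.sum_product', Finset.sum_mul_sum,
      ← Finset.sum_product']
  rw [h4]
  have hz : ∑ g ∈ Ioc 0 y, 1 / ((g : ℝ) ^ 2) ≤ Z :=
    summable_z.sum_le_tsum _ (fun _ _ => by positivity)
  have hw : ∑ u ∈ Ioc 0 y, 1 / ((u : ℝ) * √u) ≤ W :=
    summable_w.sum_le_tsum _ (fun _ _ => by positivity)
  have hw0 : 0 ≤ ∑ u ∈ Ioc 0 y, 1 / ((u : ℝ) * √u) := Finset.sum_nonneg fun _ _ => by positivity
  have hz0 : 0 ≤ ∑ g ∈ Ioc 0 y, 1 / ((g : ℝ) ^ 2) := Finset.sum_nonneg fun _ _ => by positivity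
  exact mul_le_mul hz (mul_le_mul hw hw hw0 W_nonneg) (mul_nonneg hw0 hw0) Z_nonneg

theorem divisors_eq {m y : ℕ} (hm : m ∈ Ioc 0 y) : m.divisors = (Ioc 0 y).filter (· ∣ m) := by
  simp only [mem_Ioc] at hm
  ext d
  simp only [Nat.mem_divisors, mem_filter, mem_Ioc]
  constructor
  · rintro ⟨h1, h2⟩
    exact ⟨⟨Nat.pos_of_dvd_of_pos h1 hm.1, (Nat.le_of_dvd hm.1 h1).trans hm.2⟩, h1⟩
  · rintro ⟨⟨_, _⟩, h⟩
    exact ⟨h, by omega⟩

theorem pairs_sum (y : ℕ) :
    ∑ m ∈ Ioc 0 y, (∑ d ∈ m.divisors, 1 / √(d : ℝ)) ^ 2 ≤ Z * (W * W) * y := by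
  classical
  have h1 : ∀ m ∈ Ioc 0 y, (∑ d ∈ m.divisors, 1 / √(d : ℝ)) ^ 2 =
      ∑ p ∈ Ioc 0 y ×ˢ Ioc 0 y,
        if (p.1 ∣ m ∧ p.2 ∣ m) then (1 / √(p.1 : ℝ)) * (1 / √(p.2 : ℝ)) else 0 := by
    intro m hm
    rw [divisors_eq hm, sq, Finset.sum_mul_sum, ← Finset.sum_product', ← Finset.filter_product,
      Finset.sum_filter]
  rw [Finset.sum_congr rfl h1, Finset.sum_comm]
  have h2 : ∀ p ∈ Ioc 0 y ×ˢ Ioc 0 y,
      (∑ m ∈ Ioc 0 y, if (p.1 ∣ m ∧ p.2 ∣ m) then (1 / √(p.1 : ℝ)) * (1 / √(p.2 : ℝ)) else 0) ≤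
      y * ((Nat.gcd p.1 p.2 : ℝ) / (((p.1 : ℝ) * √p.1) * ((p.2 : ℝ) * √p.2))) := by
    rintro ⟨a, b⟩ hp
    simp only [mem_product, mem_Ioc] at hp
    obtain ⟨⟨ha0, hay⟩, ⟨hb0, hby⟩⟩ := hp
    simp only
    rw [← Finset.sum_filter, Finset.sum_const, nsmul_eq_mul]
    have e : (Ioc 0 y).filter (fun m => a ∣ m ∧ b ∣ m) = (Ioc 0 y).filter (fun m => Nat.lcm a b ∣ m) := by
      ext m; simp only [mem_filter, Nat.lcm_dvd_iff]
    rw [e, Nat.Ioc_filter_dvd_card_eq_div]
    have haR : (0 : ℝ) < a := by exact_mod_cast ha0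
    have hbR : (0 : ℝ) < b := by exact_mod_cast hb0
    have hsa : 0 < √(a : ℝ) := Real.sqrt_pos.2 haR
    have hsb : 0 < √(b : ℝ) := Real.sqrt_pos.2 hbR
    have hl : (Nat.gcd a b : ℝ) * (Nat.lcm a b : ℝ) = a * b := by
      exact_mod_cast Nat.gcd_mul_lcm a b
    have hlpos : (0 : ℝ) < Nat.lcm a b := by exact_mod_cast Nat.lcm_pos ha0 hb0
    have hdiv : ((y / Nat.lcm a b : ℕ) : ℝ) ≤ y / Nat.lcm a b := Nat.cast_div_le
    have e2 : (y : ℝ) * ((Nat.gcd a b : ℝ) / (((a : ℝ) * √a) * ((b : ℝ) * √b))) =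
        (y / Nat.lcm a b) * ((1 / √(a : ℝ)) * (1 / √(b : ℝ))) := by
      field_simp
      rw [mul_assoc, hl, mul_assoc]
    rw [e2]
    exact mul_le_mul_of_nonneg_right hdiv (by positivity)
  refine (Finset.sum_le_sum h2).trans ?_
  rw [← Finset.mul_sum]
  have := mul_le_mul_of_nonneg_left (key_sum y) (Nat.cast_nonneg (α := ℝ) y)
  linarith

/-! ### The counting bound -/

/-- Counting pairs (m, divisor of m): a set `S` of integers `N ≤ x`, each equal to a number determined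
by `m N` and a divisor `d N` of `m N`, with `N` at most the sum of the divisors of `m N` up to `d N`
and `m N ≤ ε N`, has at most `C ε² x` elements. -/
theorem count_pairs (ε : ℝ) (hε : 0 < ε) (x : ℕ) (S : Finset ℕ) (m d : ℕ → ℕ)
    (hd : ∀ N ∈ S, d N ∈ (m N).divisors)
    (hle : ∀ N ∈ S, N ≤ ∑ e ∈ (m N).divisors with e ≤ d N, e)
    (hinj : Set.InjOn (fun N => (m N, d N)) (S : Set ℕ))
    (hx : ∀ N ∈ S, N ≤ x) (hm : ∀ N ∈ S, (m N : ℝ) ≤ ε * N) :
    (S.card : ℝ) ≤ ε * (Z * (W * W) * (ε * x)) := by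
  classical
  set y : ℕ := ⌊ε * x⌋₊ with hy
  set wt : ℕ × ℕ → ℝ := fun p => ε * ∑ e ∈ p.1.divisors with e ≤ p.2, (e : ℝ) / p.1 with hwt
  have hwt0 : ∀ p, 0 ≤ wt p := fun p => by
    simp only [hwt]; exact mul_nonneg hε.le (Finset.sum_nonneg fun _ _ => by positivity)
  set φ : ℕ → ℕ × ℕ := fun N => (m N, d N) with hφ
  set T : Finset (ℕ × ℕ) := (Ioc 0 y).biUnion (fun m => m.divisors.image (fun d => (m, d))) with hT
  have hfpos : ∀ N ∈ S, 0 < m N := by
    intro N hN
    exact Nat.pos_of_ne_zero (Nat.mem_divisors.1 (hd N hN)).2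
  have hone : ∀ N ∈ S, (1 : ℝ) ≤ wt (φ N) := by
    intro N hN
    have hfR : (0 : ℝ) < m N := by exact_mod_cast hfpos N hN
    have hle' : (N : ℝ) ≤ ∑ e ∈ (m N).divisors with e ≤ d N, (e : ℝ) := by
      calc (N : ℝ) ≤ ((∑ e ∈ (m N).divisors with e ≤ d N, e : ℕ) : ℝ) := by exact_mod_cast hle N hN
        _ = _ := by push_cast; rfl
    have h2 := hm N hN
    simp only [hwt, hφ]
    rw [← Finset.sum_div, ← mul_div_assoc, le_div_iff₀ hfR, one_mul]
    exact h2.trans (mul_le_mul_of_nonneg_left hle' hε.le)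
  have hsub : S.image φ ⊆ T := by
    intro p hp
    obtain ⟨N, hN, rfl⟩ := Finset.mem_image.1 hp
    simp only [hT, hφ, mem_biUnion, Finset.mem_image, mem_Ioc]
    refine ⟨m N, ⟨hfpos N hN, ?_⟩, d N, hd N hN, rfl⟩
    rw [hy]
    apply Nat.le_floor
    refine (hm N hN).trans (mul_le_mul_of_nonneg_left ?_ hε.le)
    exact_mod_cast hx N hN
  calc (S.card : ℝ) = ∑ N ∈ S, (1 : ℝ) := by simp
    _ ≤ ∑ N ∈ S, wt (φ N) := Finset.sum_le_sum hone
    _ = ∑ p ∈ S.image φ, wt p := (Finset.sum_image (f := wt) hinj).symm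
    _ ≤ ∑ p ∈ T, wt p := Finset.sum_le_sum_of_subset_of_nonneg hsub fun p _ _ => hwt0 p
    _ = ∑ m ∈ Ioc 0 y, ∑ c ∈ m.divisors, wt (m, c) := by
        rw [hT, Finset.sum_biUnion]
        · refine Finset.sum_congr rfl fun m _ => ?_
          rw [Finset.sum_image]
          intro a _ b _ h
          simpa using h
        · intro m _ m' _ hne
          simp only [Function.onFun, Finset.disjoint_left, Finset.mem_image]
          rintro p ⟨a, _, rfl⟩ ⟨b, _, h⟩
          simp only [Prod.mk.injEq] at h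
          exact hne h.1.symm
    _ ≤ ∑ m ∈ Ioc 0 y, ε * (∑ c ∈ m.divisors, 1 / √(c : ℝ)) ^ 2 := by
        refine Finset.sum_le_sum fun m hm => ?_
        simp only [mem_Ioc] at hm
        have hmR : (0 : ℝ) < m := by exact_mod_cast hm.1
        simp only [hwt]
        rw [← Finset.mul_sum]
        refine mul_le_mul_of_nonneg_left ?_ hε.le
        have hrev : ∑ c ∈ m.divisors, 1 / √(c : ℝ) = ∑ c ∈ m.divisors, √((c : ℝ) / m) := by
          rw [← Nat.sum_div_divisors m (fun c => 1 / √(c : ℝ))]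
          refine Finset.sum_congr rfl fun c hc => ?_
          have hcd : c ∣ m := Nat.dvd_of_mem_divisors hc
          have hcpos : 0 < c := Nat.pos_of_mem_divisors hc
          have hcR : (0 : ℝ) < c := by exact_mod_cast hcpos
          rw [Nat.cast_div hcd (by positivity), ← Real.sqrt_one, ← Real.sqrt_div (by norm_num),
            one_div_div]
        rw [hrev, sq, Finset.sum_mul_sum]
        refine Finset.sum_le_sum fun c hc => ?_
        have hcpos : 0 < c := Nat.pos_of_mem_divisors hc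
        have hcR : (0 : ℝ) < c := by exact_mod_cast hcpos
        calc ∑ e ∈ m.divisors with e ≤ c, (e : ℝ) / m
            ≤ ∑ e ∈ m.divisors with e ≤ c, √((c : ℝ) / m) * √((e : ℝ) / m) := by
              refine Finset.sum_le_sum fun e he => ?_
              simp only [mem_filter] at he
              have hepos : 0 < e := Nat.pos_of_mem_divisors he.1
              have heR : (0 : ℝ) < e := by exact_mod_cast hepos
              have hec : (e : ℝ) ≤ c := by exact_mod_cast he.2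
              have h1 : (e : ℝ) / m = √((e : ℝ) / m) * √((e : ℝ) / m) :=
                (Real.mul_self_sqrt (by positivity)).symm
              conv_lhs => rw [h1]
              refine mul_le_mul_of_nonneg_right ?_ (Real.sqrt_nonneg _)
              exact Real.sqrt_le_sqrt (by gcongr)
          _ ≤ ∑ e ∈ m.divisors, √((c : ℝ) / m) * √((e : ℝ) / m) :=
              Finset.sum_le_sum_of_subset_of_nonneg (Finset.filter_subset _ _)
                fun _ _ _ => by positivity
    _ = ε * ∑ m ∈ Ioc 0 y, (∑ c ∈ m.divisors, 1 / √(c : ℝ)) ^ 2 := by rw [Finset.mul_sum]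
    _ ≤ ε * (Z * (W * W) * y) := mul_le_mul_of_nonneg_left (pairs_sum y) hε.le
    _ ≤ ε * (Z * (W * W) * (ε * x)) := by
        refine mul_le_mul_of_nonneg_left ?_ hε.le
        refine mul_le_mul_of_nonneg_left ?_
          (mul_nonneg Z_nonneg (mul_nonneg W_nonneg W_nonneg))
        exact Nat.floor_le (by positivity)





/-! ### subset sums -/

/-- `N` is the sum of a subset of `P` -/
def Sub (P : Finset ℕ) (N : ℕ) : Prop := ∃ T ⊆ P, ∑ p ∈ T, p = N

theorem Sub.mono {P P' : Finset ℕ} (h : P ⊆ P') {N : ℕ} (hN : Sub P N) : Sub P' N := by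
  obtain ⟨T, hT, hs⟩ := hN
  exact ⟨T, hT.trans h, hs⟩

theorem sub_insert {P : Finset ℕ} {α ℓ r : ℕ} (h : ∀ N, α ≤ N → N ≤ α + ℓ → Sub P N)
    (hr : r ∉ P) (hrl : r ≤ ℓ + 1) : ∀ N, α ≤ N → N ≤ α + ℓ + r → Sub (insert r P) N := by
  intro N h1 h2
  rcases le_or_gt N (α + ℓ) with h3 | h3
  · exact (h N h1 h3).mono (Finset.subset_insert r P)
  · obtain ⟨T, hT, hs⟩ := h (N - r) (by omega) (by omega)
    have hrT : r ∉ T := fun h' => hr (hT h')
    refine ⟨insert r T, Finset.insert_subset_insert r hT, ?_⟩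
    rw [Finset.sum_insert hrT, hs]; omega

theorem sub_union {P : Finset ℕ} {α ℓ : ℕ} (h : ∀ N, α ≤ N → N ≤ α + ℓ → Sub P N)
    (R : Finset ℕ) (hd : Disjoint P R) (hR : ∀ r ∈ R, r ≤ ℓ + 1) :
    ∀ N, α ≤ N → N ≤ α + ℓ + ∑ r ∈ R, r → Sub (P ∪ R) N := by
  induction R using Finset.induction_on with
  | empty => simpa using h
  | insert a R ha ih =>
    rw [Finset.disjoint_insert_right] at hd
    have h1 := ih hd.2 (fun r hr => hR r (Finset.mem_insert_of_mem hr))
    have h2 := sub_insert (r := a) (ℓ := ℓ + ∑ r ∈ R, r) (α := α) (P := P ∪ R)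
      (by rw [← add_assoc]; exact h1)
      (by simp only [Finset.mem_union, not_or]; exact ⟨hd.1, ha⟩)
      (by have := hR a (Finset.mem_insert_self a R); omega)
    intro N hN1 hN2
    rw [Finset.union_insert]
    refine h2 N hN1 ?_
    rw [Finset.sum_insert ha] at hN2
    omega

/-- primes in `(a, b]` -/
def pr (a b : ℕ) : Finset ℕ := (Ioc a b).filter Nat.Prime

theorem mem_pr {a b p : ℕ} : p ∈ pr a b ↔ (a < p ∧ p ≤ b) ∧ p.Prime := by
  simp [pr]

theorem pr_succ (a b : ℕ) (hab : a ≤ b) :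
    pr a (b + 1) = if (b + 1).Prime then insert (b + 1) (pr a b) else pr a b := by
  ext p
  split_ifs with h
  · simp only [mem_insert, mem_pr]
    constructor
    · rintro ⟨⟨h1, h2⟩, h3⟩
      rcases eq_or_lt_of_le h2 with h4 | h4
      · left; exact h4
      · right; exact ⟨⟨h1, by omega⟩, h3⟩
    · rintro (h1 | ⟨⟨h1, h2⟩, h3⟩)
      · subst h1; exact ⟨⟨by omega, le_refl _⟩, h⟩
      · exact ⟨⟨h1, by omega⟩, h3⟩
  · simp only [mem_pr]
    constructor
    · rintro ⟨⟨h1, h2⟩, h3⟩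
      refine ⟨⟨h1, ?_⟩, h3⟩
      rcases eq_or_lt_of_le h2 with h4 | h4
      · subst h4; exact absurd h3 h
      · omega
    · rintro ⟨⟨h1, h2⟩, h3⟩
      exact ⟨⟨h1, by omega⟩, h3⟩

/-- Bertrand: the sum of the primes in `(z,y]` plus `2z` is at least `y`. -/
theorem bertrand_sum (z ℓ : ℕ) (hz : 0 < z) (hl : 2 * z ≤ ℓ) :
    ∀ y, z ≤ y → y ≤ ℓ + ∑ r ∈ pr z y, r := by
  intro y
  induction y using Nat.strong_induction_on with
  | _ y ih =>
    intro hzy
    rcases le_or_gt y (2 * z) with h | h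
    · omega
    · obtain ⟨q, hq, hq1, hq2⟩ := Nat.exists_prime_lt_and_le_two_mul (y / 2) (by omega)
      have h1 := ih (q - 1) (by omega) (by omega)
      have h2 : insert q (pr z (q - 1)) ⊆ pr z y := by
        intro p hp
        rw [mem_insert, mem_pr] at hp
        rw [mem_pr]
        rcases hp with rfl | ⟨⟨h3, h4⟩, h5⟩
        · exact ⟨⟨by omega, by omega⟩, hq⟩
        · exact ⟨⟨h3, by omega⟩, h5⟩
      have h3 : q ∉ pr z (q - 1) := by
        rw [mem_pr]; rintro ⟨⟨_, h4⟩, _⟩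
        have := hq.pos
        omega
      have h4 := Finset.sum_le_sum_of_subset (f := fun r => r) h2
      rw [Finset.sum_insert h3] at h4
      omega

theorem sub_primes {P : Finset ℕ} {α ℓ z : ℕ} (hz : 0 < z) (hP : ∀ p ∈ P, p ≤ z)
    (h : ∀ N, α ≤ N → N ≤ α + ℓ → Sub P N) (hl : 2 * z ≤ ℓ) :
    ∀ y, z ≤ y → ∀ N, α ≤ N → N ≤ α + ℓ + ∑ r ∈ pr z y, r → Sub (P ∪ pr z y) N := by
  intro y hy
  induction y, hy using Nat.le_induction with
  | base =>
    have : pr z z = ∅ := by simp [pr]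
    rw [this]; simpa using h
  | succ y hy ih =>
    rw [pr_succ z y hy]
    split_ifs with hpr
    · have hnot : y + 1 ∉ pr z y := by rw [mem_pr]; rintro ⟨⟨_, h4⟩, _⟩; omega
      have hnotP : y + 1 ∉ P := fun h' => by have := hP _ h'; omega
      have h1 := sub_insert (r := y + 1) (ℓ := ℓ + ∑ r ∈ pr z y, r) (α := α) (P := P ∪ pr z y)
        (by rw [← add_assoc]; exact ih)
        (by simp only [Finset.mem_union, not_or]; exact ⟨hnotP, hnot⟩)
        (by have := bertrand_sum z ℓ hz hl y hy; omega)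
      intro N hN1 hN2
      rw [Finset.union_insert]
      refine h1 N hN1 ?_
      rw [Finset.sum_insert hnot] at hN2
      omega
    · exact ih

/-! ### residues -/

open Classical in
/-- residues of subset sums -/
noncomputable def res (h : ℕ) (E : Finset ℕ) : Finset (ZMod h) :=
  E.powerset.image (fun T => ((∑ p ∈ T, p : ℕ) : ZMod h))

theorem mem_res {h : ℕ} {E : Finset ℕ} {x : ZMod h} :
    x ∈ res h E ↔ ∃ T ⊆ E, ((∑ p ∈ T, p : ℕ) : ZMod h) = x := by
  simp [res]

theorem res_insert {h : ℕ} {E : Finset ℕ} {e : ℕ} (he : e ∉ E) {x : ZMod h} :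
    x ∈ res h (insert e E) ↔ x ∈ res h E ∨ (x - e) ∈ res h E := by
  rw [mem_res, mem_res, mem_res]
  constructor
  · rintro ⟨T, hT, hs⟩
    by_cases h1 : e ∈ T
    · right
      refine ⟨T.erase e, ?_, ?_⟩
      · intro p hp
        rw [Finset.mem_erase] at hp
        have := hT hp.2
        rw [Finset.mem_insert] at this
        exact this.resolve_left hp.1
      · rw [← hs, ← Finset.add_sum_erase T (fun p => p) h1]
        push_cast; ring
    · left
      refine ⟨T, ?_, hs⟩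
      intro p hp
      have := hT hp
      rw [Finset.mem_insert] at this
      rcases this with h2 | h2
      · exact absurd (h2 ▸ hp) h1
      · exact h2
  · rintro (⟨T, hT, hs⟩ | ⟨T, hT, hs⟩)
    · exact ⟨T, hT.trans (Finset.subset_insert e E), hs⟩
    · refine ⟨insert e T, Finset.insert_subset_insert e hT, ?_⟩
      rw [Finset.sum_insert (fun h' => he (hT h'))]
      push_cast at hs ⊢
      rw [hs]; ring

theorem card_res (h : ℕ) [NeZero h] (E : Finset ℕ) (hE : ∀ e ∈ E, Nat.Coprime e h) :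
    min h (E.card + 1) ≤ (res h E).card := by
  classical
  induction E using Finset.induction_on with
  | empty =>
    have : 0 < (res h ∅).card := by
      rw [Finset.card_pos]
      exact ⟨0, mem_res.2 ⟨∅, by simp, by simp⟩⟩
    simp only [Finset.card_empty]
    omega
  | insert e E he ih =>
    have ih' := ih (fun e' he' => hE e' (Finset.mem_insert_of_mem he'))
    have hsub : res h E ⊆ res h (insert e E) := by
      intro x hx; rw [res_insert he]; left; exact hx
    by_cases huniv : res h E = Finset.univ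
    · have : res h (insert e E) = Finset.univ := by
        rw [Finset.eq_univ_iff_forall]; intro x; exact hsub (huniv ▸ Finset.mem_univ x)
      rw [this, Finset.card_univ, ZMod.card]
      exact min_le_left _ _
    · have hlt : (res h E).card < (res h (insert e E)).card := by
        apply Finset.card_lt_card
        refine Finset.ssubset_iff_subset_ne.2 ⟨hsub, fun heq => huniv ?_⟩
        -- closed under adding `e`
        have hclosed : ∀ x ∈ res h E, x + e ∈ res h E := by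
          intro x hx
          rw [heq, res_insert he]; right; simpa using hx
        have h0 : (0 : ZMod h) ∈ res h E := mem_res.2 ⟨∅, by simp, by simp⟩
        have hmul : ∀ k : ℕ, (k : ZMod h) * e ∈ res h E := by
          intro k
          induction k with
          | zero => simpa using h0
          | succ k ihk =>
            have := hclosed _ ihk
            have e2 : ((k + 1 : ℕ) : ZMod h) * e = (k : ZMod h) * e + e := by push_cast; ring
            rw [e2]; exact this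
        rw [Finset.eq_univ_iff_forall]
        intro x
        have hcop : Nat.Coprime e h := hE e (Finset.mem_insert_self e E)
        have hunit : ((e : ZMod h)) * (e : ZMod h)⁻¹ = 1 := ZMod.coe_mul_inv_eq_one e hcop
        have h3 := hmul (x * (e : ZMod h)⁻¹).val
        rw [ZMod.natCast_zmod_val] at h3
        rw [mul_assoc, mul_comm ((e : ZMod h)⁻¹), hunit, mul_one] at h3
        exact h3
      rw [Finset.card_insert_of_notMem he]
      omega

theorem exists_res (h : ℕ) (hh : 0 < h) (E : Finset ℕ) (hE : ∀ e ∈ E, Nat.Coprime e h)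
    (hcard : h ≤ E.card + 1) (c : ℕ) : ∃ T ⊆ E, (∑ p ∈ T, p) ≡ c [MOD h] := by
  have : NeZero h := ⟨hh.ne'⟩
  have h1 := card_res h E hE
  rw [min_eq_left hcard] at h1
  have h2 : res h E = Finset.univ := by
    apply Finset.eq_univ_of_card
    rw [ZMod.card]
    apply le_antisymm _ h1
    have := Finset.card_le_univ (res h E)
    rwa [ZMod.card] at this
  have h3 : (c : ZMod h) ∈ res h E := by rw [h2]; exact Finset.mem_univ _
  obtain ⟨T, hT, hs⟩ := mem_res.1 h3
  exact ⟨T, hT, (ZMod.natCast_eq_natCast_iff _ _ _).1 hs⟩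

/-! ### pairs with a fixed difference -/

theorem sub_pairs (h : ℕ) (L : Finset ℕ) (hdis : ∀ p ∈ L, p + h ∉ L) (t : ℕ) (ht : t ≤ L.card) :
    Sub (L ∪ L.image (· + h)) (∑ p ∈ L, p + t * h) := by
  obtain ⟨T, hT, hTc⟩ := Finset.exists_subset_card_eq ht
  refine ⟨(L \ T) ∪ T.image (· + h), ?_, ?_⟩
  · refine Finset.union_subset_union Finset.sdiff_subset ?_
    exact Finset.image_subset_image hT
  · rw [Finset.sum_union]
    · rw [Finset.sum_image (by intro a _ b _ hab; simpa using hab), Finset.sum_add_distrib,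
        Finset.sum_const, hTc, ← Finset.sum_sdiff hT]
      simp; ring
    · rw [Finset.disjoint_left]
      intro a ha ha'
      rw [Finset.mem_sdiff] at ha
      obtain ⟨b, hb, rfl⟩ := Finset.mem_image.1 ha'
      exact hdis b (hT hb) ha.1

/-- an interval of subset sums from pairs and residues -/
theorem sub_interval (h : ℕ) (hh : 0 < h) (L E : Finset ℕ) (hdis : ∀ p ∈ L, p + h ∉ L)
    (hE : ∀ e ∈ E, Nat.Coprime e h) (hcard : h ≤ E.card + 1) (Q : ℕ) (hQ : ∑ e ∈ E, e ≤ Q)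
    (hLE : Disjoint (L ∪ L.image (· + h)) E) (ℓ : ℕ) (hK : Q + ℓ ≤ L.card * h) :
    ∀ N, ∑ p ∈ L, p + Q ≤ N → N ≤ ∑ p ∈ L, p + Q + ℓ → Sub (L ∪ L.image (· + h) ∪ E) N := by
  intro N h1 h2
  set S := ∑ p ∈ L, p with hS
  obtain ⟨T, hT, hmod⟩ := exists_res h hh E hE hcard (N - S)
  have hTQ : ∑ p ∈ T, p ≤ Q := (Finset.sum_le_sum_of_subset hT).trans hQ
  set ρ := ∑ p ∈ T, p with hρ
  have hle : ρ ≤ N - S := by omega
  obtain ⟨t, ht⟩ := (Nat.modEq_iff_dvd' hle).1 hmod
  have ht2 : t ≤ L.card := by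
    by_contra hlt
    push Not at hlt
    have h3 : (L.card + 1) * h ≤ t * h := Nat.mul_le_mul_right h hlt
    have h4 : h * t ≤ Q + ℓ := by omega
    nlinarith
  obtain ⟨T', hT', hs'⟩ := sub_pairs h L hdis t ht2
  refine ⟨T' ∪ T, Finset.union_subset_union hT' hT, ?_⟩
  rw [Finset.sum_union (Disjoint.mono hT' hT hLE), hs', ← hS, ← hρ]
  have : h * t = t * h := Nat.mul_comm h t
  omega



/-! ### a popular difference -/

theorem exists_pairs (a b m H K : ℕ) (hm : a.primeCounting + 2 * m ≤ b.primeCounting) (hH : 0 < H)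
    (hcount : H * K + b / H < m) :
    ∃ h, 0 < h ∧ h ≤ H ∧ ∃ L : Finset ℕ, L.card = K ∧ L ⊆ pr a b ∧ L.image (· + h) ⊆ pr a b ∧
      ∀ p ∈ L, p + h ∉ L := by
  classical
  set e : ℕ → ℕ := fun i => Nat.nth Nat.Prime (a.primeCounting + i) with he
  have hinf : {p | Nat.Prime p}.Infinite := Nat.infinite_setOfPred_prime
  have hltnth : ∀ x y : ℕ, x < Nat.count Nat.Prime y ↔ Nat.nth Nat.Prime x < y :=
    fun x y => Nat.lt_nth_iff_count_lt hinf
  have hmono : StrictMono e := fun i j hij => Nat.nth_strictMono hinf (by omega)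
  have hprime : ∀ i, (e i).Prime := fun i => Nat.prime_nth_prime _
  have ha : ∀ i, a < e i := by
    intro i
    by_contra hlt
    push Not at hlt
    have h1 : Nat.nth Nat.Prime (a.primeCounting + i) < a + 1 := by
      have : e i ≤ a := hlt
      simp only [he] at this; omega
    rw [← hltnth] at h1
    have : Nat.count Nat.Prime (a + 1) = a.primeCounting := rfl
    omega
  have hb : ∀ i < 2 * m, e i ≤ b := by
    intro i hi
    have h1 : a.primeCounting + i < Nat.count Nat.Prime (b + 1) := by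
      have : Nat.count Nat.Prime (b + 1) = b.primeCounting := rfl
      omega
    rw [hltnth] at h1
    simp only [he]; omega
  have hmem : ∀ i < 2 * m, e i ∈ pr a b := fun i hi => mem_pr.2 ⟨⟨ha i, hb i hi⟩, hprime i⟩
  set gap : ℕ → ℕ := fun i => e (2 * i + 1) - e (2 * i) with hgap
  have hgap0 : ∀ i, 0 < gap i := fun i => by
    have := hmono (show 2 * i < 2 * i + 1 by omega)
    simp only [hgap]; omega
  have hsum : ∀ j, ∑ i ∈ range (j + 1), gap i + e 0 ≤ e (2 * j + 1) := by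
    intro j
    induction j with
    | zero =>
      have := hmono (show 0 < 1 by omega)
      simp [hgap]; omega
    | succ j ih =>
      rw [Finset.sum_range_succ]
      have h1 := hmono (show 2 * j + 1 < 2 * (j + 1) by omega)
      have h2 := hmono (show 2 * (j + 1) < 2 * (j + 1) + 1 by omega)
      have h3 : gap (j + 1) = e (2 * (j + 1) + 1) - e (2 * (j + 1)) := rfl
      omega
  have hm0 : 0 < m := lt_of_le_of_lt (Nat.zero_le _) hcount
  have hsumb : ∑ i ∈ range m, gap i ≤ b := by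
    obtain ⟨j, rfl⟩ : ∃ j, m = j + 1 := ⟨m - 1, by omega⟩
    have h1 := hsum j
    have h2 := hb (2 * j + 1) (by omega)
    omega
  have hbig : ((range m).filter (fun i => ¬ gap i ≤ H)).card ≤ b / H := by
    rw [Nat.le_div_iff_mul_le hH]
    calc ((range m).filter (fun i => ¬ gap i ≤ H)).card * H
        = ∑ i ∈ (range m).filter (fun i => ¬ gap i ≤ H), H := by simp
      _ ≤ ∑ i ∈ (range m).filter (fun i => ¬ gap i ≤ H), gap i := by
          refine Finset.sum_le_sum fun i hi => ?_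
          rw [mem_filter] at hi; omega
      _ ≤ ∑ i ∈ range m, gap i := Finset.sum_le_sum_of_subset (Finset.filter_subset _ _)
      _ ≤ b := hsumb
  have hsmall : H * K < ((range m).filter (fun i => gap i ≤ H)).card := by
    have h1 := Finset.card_filter_add_card_filter_not (s := range m) (fun i => gap i ≤ H)
    rw [Finset.card_range] at h1
    omega
  obtain ⟨h, hh, hcard⟩ := Finset.exists_lt_card_fiber_of_mul_lt_card_of_maps_to
    (s := (range m).filter (fun i => gap i ≤ H)) (t := Icc 1 H) (f := gap) (n := K)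
    (by
      intro i hi
      rw [mem_filter] at hi
      rw [Finset.mem_Icc]
      exact ⟨hgap0 i, hi.2⟩)
    (by rw [Nat.card_Icc]; simpa using hsmall)
  rw [Finset.mem_Icc] at hh
  obtain ⟨I, hI, hIc⟩ := Finset.exists_subset_card_eq hcard.le
  have hIprop : ∀ i ∈ I, i < m ∧ gap i = h := by
    intro i hi
    have := hI hi
    simp only [mem_filter, mem_range] at this
    exact ⟨this.1.1, this.2⟩
  have hadd : ∀ i ∈ I, e (2 * i) + h = e (2 * i + 1) := by
    intro i hi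
    have h1 := (hIprop i hi).2
    have h2 := hmono (show 2 * i < 2 * i + 1 by omega)
    simp only [hgap] at h1
    omega
  refine ⟨h, hh.1, hh.2, I.image (fun i => e (2 * i)), ?_, ?_, ?_, ?_⟩
  · rw [Finset.card_image_of_injective _ (fun i j hij => by
      have := hmono.injective hij
      omega), hIc]
  · intro p hp
    obtain ⟨i, hi, rfl⟩ := Finset.mem_image.1 hp
    exact hmem _ (by have := (hIprop i hi).1; omega)
  · intro p hp
    obtain ⟨q, hq, rfl⟩ := Finset.mem_image.1 hp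
    obtain ⟨i, hi, rfl⟩ := Finset.mem_image.1 hq
    rw [hadd i hi]
    exact hmem _ (by have := (hIprop i hi).1; omega)
  · intro p hp hp'
    obtain ⟨i, hi, rfl⟩ := Finset.mem_image.1 hp
    rw [hadd i hi] at hp'
    obtain ⟨j, hj, hij⟩ := Finset.mem_image.1 hp'
    have := hmono.injective hij
    omega

/-! ### Chebyshev -/

open Filter in
theorem cheb : ∀ᶠ t : ℕ in atTop, ∀ j : ℕ, 1 ≤ j → j ≤ 24 → 4 * t ^ (j - 1) ≤ (t ^ j).primeCounting := by
  have hlog : ∀ᶠ t : ℕ in atTop, 120 * Real.log t + 1 ≤ (t : ℝ) * Real.log 2 := by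
    have h1 : Tendsto (fun x : ℝ => Real.log x / x) atTop (nhds 0) := by
      have := Real.isLittleO_log_id_atTop
      simpa using this.tendsto_div_nhds_zero
    have h2 : ∀ᶠ x : ℝ in atTop, Real.log x / x < Real.log 2 / 240 :=
      h1.eventually (gt_mem_nhds (by have := Real.log_pos (by norm_num : (1:ℝ) < 2); positivity))
    have h3 : ∀ᶠ x : ℝ in atTop, 120 * Real.log x + 1 ≤ x * Real.log 2 := by
      filter_upwards [h2, eventually_ge_atTop (2 / Real.log 2), eventually_gt_atTop 0] with x hx hx2 hx0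
      rw [div_lt_iff₀ hx0] at hx
      have hl2 := Real.log_pos (by norm_num : (1:ℝ) < 2)
      rw [div_le_iff₀ hl2] at hx2
      nlinarith
    exact tendsto_natCast_atTop_atTop.eventually h3
  filter_upwards [hlog, eventually_ge_atTop 2] with t ht ht2 j hj1 hj2
  have htR : (2 : ℝ) ≤ t := by exact_mod_cast ht2
  have ht0 : (0 : ℝ) < t := by linarith
  have hlt : 0 < Real.log t := Real.log_pos (by linarith)
  have hj : (1 : ℝ) ≤ j := by exact_mod_cast hj1
  have hj' : (j : ℝ) ≤ 24 := by exact_mod_cast hj2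
  have h1 := Chebyshev.pi_ge (t ^ j)
  have hlogn : Real.log ((t ^ j : ℕ) : ℝ) = j * Real.log t := by push_cast; rw [Real.log_pow]
  rw [hlogn] at h1
  have hpos : 0 < (j : ℝ) * Real.log t := by positivity
  rw [div_le_iff₀ hpos] at h1
  have htj : (1 : ℝ) ≤ (t : ℝ) ^ j := one_le_pow₀ (by linarith)
  have hlog2 : Real.log (((t ^ j : ℕ) : ℝ) + 1) ≤ Real.log 2 + 24 * Real.log t := by
    have e : Real.log 2 + j * Real.log t = Real.log (2 * (t : ℝ) ^ j) := by
      rw [Real.log_mul (by norm_num) (by positivity), Real.log_pow]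
    calc Real.log (((t ^ j : ℕ) : ℝ) + 1) ≤ Real.log (2 * (t : ℝ) ^ j) := by
          refine Real.log_le_log (by positivity) ?_
          push_cast; linarith
      _ = Real.log 2 + j * Real.log t := e.symm
      _ ≤ _ := by nlinarith
  obtain ⟨i, rfl⟩ : ∃ i, j = i + 1 := ⟨j - 1, by omega⟩
  simp only [Nat.add_sub_cancel]
  have hti : (1 : ℝ) ≤ (t : ℝ) ^ i := one_le_pow₀ (by linarith)
  have hl2 : Real.log 2 ≤ 1 := by
    have := Real.log_two_lt_d9; linarith
  have h5 : (4 * (t : ℝ) ^ i) * (((i + 1 : ℕ) : ℝ) * Real.log t) ≤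
      (((t ^ (i + 1) : ℕ).primeCounting : ℕ) : ℝ) * (((i + 1 : ℕ) : ℝ) * Real.log t) := by
    refine le_trans ?_ h1
    have e : ((t ^ (i + 1) : ℕ) : ℝ) = (t : ℝ) ^ i * t := by push_cast; rw [pow_succ]
    rw [e] at hlog2 ⊢
    have h6 : (t : ℝ) ^ i * (120 * Real.log t + 1) ≤ (t : ℝ) ^ i * (t * Real.log 2) :=
      mul_le_mul_of_nonneg_left ht (by positivity)
    have h7 : (4 * (t : ℝ) ^ i) * (((i + 1 : ℕ) : ℝ) * Real.log t) ≤ (t : ℝ) ^ i * (96 * Real.log t) := by
      have : (((i + 1 : ℕ) : ℝ) * Real.log t) ≤ 24 * Real.log t := mul_le_mul_of_nonneg_right hj' hlt.le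
      nlinarith
    have h8 : 24 * Real.log t + 1 ≤ (t : ℝ) ^ i * (24 * Real.log t + 1) := by
      nlinarith
    nlinarith
  have h9 := le_of_mul_le_mul_right h5 hpos
  exact_mod_cast h9



theorem card_pr (a b : ℕ) (hab : a ≤ b) : (pr a b).card + a.primeCounting = b.primeCounting := by
  have h : ∀ n : ℕ, n.primeCounting = ((range (n + 1)).filter Nat.Prime).card := by
    intro n
    rw [← Nat.count_eq_card_filter_range]; rfl
  rw [h, h, ← Finset.card_union_of_disjoint]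
  · congr 1
    ext p
    simp only [pr, mem_union, mem_filter, mem_Ioc, mem_range]
    constructor
    · rintro (⟨⟨h1, h2⟩, h3⟩ | ⟨h1, h2⟩)
      · exact ⟨by omega, h3⟩
      · exact ⟨by omega, h2⟩
    · rintro ⟨h1, h2⟩
      by_cases h3 : a < p
      · left; exact ⟨⟨h3, by omega⟩, h2⟩
      · right; exact ⟨by omega, h2⟩
  · rw [Finset.disjoint_left]
    intro p h1 h2
    simp only [pr, mem_filter, mem_Ioc, mem_range] at h1 h2
    omega

theorem primeCounting_le (n : ℕ) : n.primeCounting ≤ n := by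
  rcases Nat.eq_zero_or_pos n with h | h
  · subst h; simp
  · have h1 := card_pr 1 n h
    have h2 : (pr 1 n).card ≤ n - 1 := by
      refine (Finset.card_filter_le _ _).trans ?_
      simp
    have h3 : Nat.primeCounting 1 = 0 := by decide
    omega

open Filter in
/-- every integer in `[2 t^37, t^42]` is a sum of distinct primes from `(t^12, t^24]` -/
theorem interval_t : ∀ᶠ t : ℕ in atTop, ∀ N, 2 * t ^ 37 ≤ N → N ≤ t ^ 42 →
    Sub (pr (t ^ 12) (t ^ 24)) N := by
  filter_upwards [cheb, eventually_ge_atTop 10] with t hch ht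
  classical
  -- prime counts
  have hc13 := hch 13 (by norm_num) (by norm_num)
  have hc14 := hch 14 (by norm_num) (by norm_num)
  have hc20 := hch 20 (by norm_num) (by norm_num)
  have hc24 := hch 24 (by norm_num) (by norm_num)
  norm_num at hc13 hc14 hc20 hc24
  have ht0 : 0 < t := by omega
  have hpow : ∀ i j : ℕ, i ≤ j → t ^ i ≤ t ^ j := fun i j hij => Nat.pow_le_pow_right ht0 hij
  have hpow10 : ∀ i : ℕ, 10 * t ^ i ≤ t ^ (i + 1) := fun i => by
    rw [pow_succ, mul_comm]; exact Nat.mul_le_mul_left _ ht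
  have hpos : ∀ i : ℕ, 0 < t ^ i := fun i => pow_pos ht0 i
  -- pairs
  obtain ⟨h, hh0, hhH, L, hLc, hL, hL', hdis⟩ := exists_pairs (t ^ 14) (t ^ 20) (t ^ 19) (2 * t) (t ^ 17)
    (by
      have h1 := primeCounting_le (t ^ 14)
      have h2 := hpow 14 19 (by norm_num)
      omega)
    (by omega)
    (by
      have e1 : 2 * t * t ^ 17 = 2 * t ^ 18 := by ring
      have e2 : t ^ 20 / (2 * t) ≤ t ^ 19 / 2 := by
        have : t ^ 20 = t ^ 19 * t := by ring
        rw [this, Nat.mul_div_mul_right _ _ ht0]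
      have h1 := hpow10 18
      norm_num at h1
      rw [e1]
      have h2 : t ^ 19 / 2 * 2 ≤ t ^ 19 := Nat.div_mul_le_self _ _
      have := hpos 18
      omega)
  -- extra primes
  have hcardE : h - 1 ≤ (pr (t ^ 12) (t ^ 13)).card := by
    have h1 := card_pr (t ^ 12) (t ^ 13) (hpow 12 13 (by norm_num))
    have h2 := primeCounting_le (t ^ 12)
    have h3 := hpow 1 12 (by norm_num)
    rw [pow_one] at h3
    omega
  obtain ⟨E, hE, hEc⟩ := Finset.exists_subset_card_eq hcardE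
  have hEprop : ∀ e ∈ E, (t ^ 12 < e ∧ e ≤ t ^ 13) ∧ e.Prime := fun e he => mem_pr.1 (hE he)
  have hLprop : ∀ p ∈ L ∪ L.image (· + h), (t ^ 14 < p ∧ p ≤ t ^ 20) ∧ p.Prime := by
    intro p hp
    rcases Finset.mem_union.1 hp with hp | hp
    · exact mem_pr.1 (hL hp)
    · exact mem_pr.1 (hL' hp)
  have hcop : ∀ e ∈ E, Nat.Coprime e h := by
    intro e he
    have h1 := hEprop e he
    have h2 := hpow 2 12 (by norm_num)
    have h3 : 2 * t ≤ t ^ 2 := by nlinarith
    exact (Nat.Prime.coprime_iff_not_dvd h1.2).2 fun hd => by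
      have := Nat.le_of_dvd hh0 hd
      omega
  have hQ : ∑ e ∈ E, e ≤ 2 * t ^ 14 := by
    calc ∑ e ∈ E, e ≤ ∑ _e ∈ E, t ^ 13 := Finset.sum_le_sum fun e he => (hEprop e he).1.2
      _ = (h - 1) * t ^ 13 := by rw [Finset.sum_const, hEc, smul_eq_mul]
      _ ≤ (2 * t) * t ^ 13 := Nat.mul_le_mul_right _ (by omega)
      _ = 2 * t ^ 14 := by ring
  have hdisLE : Disjoint (L ∪ L.image (· + h)) E := by
    rw [Finset.disjoint_left]
    intro p hp hp'
    have h1 := (hLprop p hp).1.1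
    have h2 := (hEprop p hp').1.2
    have h3 := hpow 13 14 (by norm_num)
    omega
  have hK : 2 * t ^ 14 + t ^ 16 ≤ L.card * h := by
    rw [hLc]
    have h1 := hpow10 16
    have h2 := hpow 14 16 (by norm_num)
    norm_num at h1
    have h3 : t ^ 17 * 1 ≤ t ^ 17 * h := Nat.mul_le_mul_left _ hh0
    omega
  have hint0 := sub_interval h hh0 L E hdis hcop (by omega) (2 * t ^ 14) hQ hdisLE (t ^ 16) hK
  set α := ∑ p ∈ L, p + 2 * t ^ 14 with hα
  have hαle : α ≤ 2 * t ^ 37 := by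
    have h1 : ∑ p ∈ L, p ≤ t ^ 37 := by
      calc ∑ p ∈ L, p ≤ ∑ _p ∈ L, t ^ 20 :=
            Finset.sum_le_sum fun p hp => (hLprop p (Finset.mem_union_left _ hp)).1.2
        _ = t ^ 17 * t ^ 20 := by rw [Finset.sum_const, hLc, smul_eq_mul]
        _ = t ^ 37 := by ring
    have h2 := hpow10 36
    have h3 := hpow 14 36 (by norm_num)
    norm_num at h2
    omega
  -- reserved primes
  set R := pr (t ^ 13) (t ^ 14) with hR
  have hRdis : Disjoint (L ∪ L.image (· + h) ∪ E) R := by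
    rw [Finset.disjoint_left]
    intro p hp hp'
    rw [hR, mem_pr] at hp'
    rcases Finset.mem_union.1 hp with hp | hp
    · have h1 := (hLprop p hp).1.1
      omega
    · have h1 := (hEprop p hp).1.2
      omega
  have hint1 := sub_union hint0 R hRdis (by
    intro r hr
    rw [hR, mem_pr] at hr
    have := hpow 14 16 (by norm_num)
    omega)
  have hRsum : 2 * t ^ 20 ≤ ∑ r ∈ R, r := by
    have h1 := card_pr (t ^ 13) (t ^ 14) (hpow 13 14 (by norm_num))
    have h2 := primeCounting_le (t ^ 13)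
    have h3 : 2 * t ^ 13 ≤ R.card := by rw [hR]; omega
    calc 2 * t ^ 20 ≤ 2 * t ^ 26 := by have := hpow 20 26 (by norm_num); omega
      _ = (2 * t ^ 13) * t ^ 13 := by ring
      _ ≤ R.card * t ^ 13 := Nat.mul_le_mul_right _ h3
      _ = ∑ _r ∈ R, t ^ 13 := by rw [Finset.sum_const, smul_eq_mul]
      _ ≤ ∑ r ∈ R, r := Finset.sum_le_sum fun r hr => by
          rw [hR, mem_pr] at hr; exact hr.1.1.le
  rw [show (∀ N, α ≤ N → N ≤ α + t ^ 16 + ∑ r ∈ R, r → Sub (L ∪ L.image (· + h) ∪ E ∪ R) N) ↔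
    (∀ N, α ≤ N → N ≤ α + (t ^ 16 + ∑ r ∈ R, r) → Sub (L ∪ L.image (· + h) ∪ E ∪ R) N) by
      rw [add_assoc]] at hint1
  have hint2 := sub_primes (hpos 20) (by
    intro p hp
    rcases Finset.mem_union.1 hp with hp | hp
    · rcases Finset.mem_union.1 hp with hp | hp
      · exact (hLprop p hp).1.2
      · have h1 := (hEprop p hp).1.2
        have := hpow 13 20 (by norm_num)
        omega
    · rw [hR, mem_pr] at hp
      have := hpow 14 20 (by norm_num)
      omega) hint1 (by omega) (t ^ 24) (hpow 20 24 (by norm_num))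
  have hbig : t ^ 42 ≤ ∑ r ∈ pr (t ^ 20) (t ^ 24), r := by
    have h1 := card_pr (t ^ 20) (t ^ 24) (hpow 20 24 (by norm_num))
    have h2 := primeCounting_le (t ^ 20)
    have h4 := hpow 20 23 (by norm_num)
    have h3 : t ^ 22 ≤ (pr (t ^ 20) (t ^ 24)).card := by
      have := hpow 22 23 (by norm_num)
      omega
    calc t ^ 42 = t ^ 22 * t ^ 20 := by ring
      _ ≤ (pr (t ^ 20) (t ^ 24)).card * t ^ 20 := Nat.mul_le_mul_right _ h3
      _ = ∑ _r ∈ pr (t ^ 20) (t ^ 24), t ^ 20 := by rw [Finset.sum_const, smul_eq_mul]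
      _ ≤ ∑ r ∈ pr (t ^ 20) (t ^ 24), r := Finset.sum_le_sum fun r hr => by
          rw [mem_pr] at hr; exact hr.1.1.le
  intro N hN1 hN2
  refine (hint2 N (by omega) (by omega)).mono ?_
  intro p hp
  rw [mem_pr]
  rcases Finset.mem_union.1 hp with hp | hp
  · rcases Finset.mem_union.1 hp with hp | hp
    · rcases Finset.mem_union.1 hp with hp | hp
      · have h1 := hLprop p hp
        have h2 := hpow 12 14 (by norm_num)
        have h3 := hpow 20 24 (by norm_num)
        exact ⟨⟨by omega, by omega⟩, h1.2⟩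
      · have h1 := hEprop p hp
        have h3 := hpow 13 24 (by norm_num)
        exact ⟨⟨by omega, by omega⟩, h1.2⟩
    · rw [hR, mem_pr] at hp
      have h2 := hpow 12 13 (by norm_num)
      have h3 := hpow 14 24 (by norm_num)
      exact ⟨⟨by omega, by omega⟩, hp.2⟩
  · rw [mem_pr] at hp
    have h2 := hpow 12 20 (by norm_num)
    exact ⟨⟨by omega, by omega⟩, hp.2⟩

theorem exists_floor (g : ℕ → ℕ) (hg : ∀ t, t ≤ g t) (T N : ℕ) (h : g T ≤ N) :
    ∃ t, g t ≤ N ∧ N < g (t + 1) ∧ T ≤ t := by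
  classical
  have hbd : ∀ t, g t ≤ N → t ≤ N := fun t ht => (hg t).trans ht
  refine ⟨Nat.findGreatest (fun t => g t ≤ N) N, ?_, ?_, ?_⟩
  · exact Nat.findGreatest_spec (P := fun t => g t ≤ N) (hbd T h) h
  · by_contra hlt
    push Not at hlt
    have h1 := Nat.le_findGreatest (P := fun t => g t ≤ N) (hbd _ hlt) hlt
    omega
  · exact Nat.le_findGreatest (P := fun t => g t ≤ N) (hbd T h) h

theorem pow_aux (t : ℝ) (ht : 10 ≤ t) (n m : ℕ) (h : (11 / 10 : ℝ) ^ n ≤ 10 ^ m) :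
    (t + 1) ^ n ≤ t ^ (n + m) := by
  have h1 : (t + 1) ^ n ≤ (t * (11 / 10)) ^ n := pow_le_pow_left₀ (by linarith) (by linarith) n
  have h2 : (10 : ℝ) ^ m ≤ t ^ m := pow_le_pow_left₀ (by norm_num) ht m
  rw [mul_pow] at h1
  rw [pow_add]
  exact h1.trans (mul_le_mul_of_nonneg_left (h.trans h2) (by positivity))

/-- every large `N` is a sum of distinct primes from `(w, w^2]`, for some `w` -/
theorem large_sub : ∃ N₀ : ℕ, ∀ N ≥ N₀, ∃ w : ℕ, 0 < w ∧ Sub (pr w (w ^ 2)) N := by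
  obtain ⟨t₀, ht₀⟩ := Filter.eventually_atTop.1 interval_t
  set T := max t₀ 10 with hT
  refine ⟨T ^ 38, fun N hN => ?_⟩
  -- largest `t` with `t^38 ≤ N`
  have hex : ∃ t, t ^ 38 ≤ N ∧ N < (t + 1) ^ 38 ∧ T ≤ t :=
    exists_floor (fun t => t ^ 38) (fun t => Nat.le_self_pow (by norm_num) t) T N hN
  obtain ⟨t, h1, h2, h3⟩ := hex
  have ht10 : 10 ≤ t := le_trans (le_max_right _ _) h3
  have ht0 : t₀ ≤ t := le_trans (le_max_left _ _) h3
  refine ⟨t ^ 12, pow_pos (by omega) 12, ?_⟩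
  rw [← pow_mul]
  refine ht₀ t ht0 N ?_ ?_
  · have : 2 * t ^ 37 ≤ t * t ^ 37 := Nat.mul_le_mul_right _ (by omega)
    calc 2 * t ^ 37 ≤ t * t ^ 37 := this
      _ = t ^ 38 := by ring
      _ ≤ N := h1
  · have htR : (10 : ℝ) ≤ t := by exact_mod_cast ht10
    have h4 := pow_aux t htR 38 4 (by norm_num)
    have h5 : (t + 1) ^ 38 ≤ t ^ (38 + 4) := by exact_mod_cast h4
    exact (le_of_lt h2).trans h5



/-! ### initial divisor sums from primes -/

theorem filter_divisors {w : ℕ} {T : Finset ℕ} (hT : T ⊆ pr w (w ^ 2)) (hne : T.Nonempty) :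
    (∏ p ∈ T, p).divisors.filter (fun e => e ≤ T.max' hne) = insert 1 T := by
  have hprop : ∀ p ∈ T, (w < p ∧ p ≤ w ^ 2) ∧ p.Prime := fun p hp => mem_pr.1 (hT hp)
  have hm0 : (∏ p ∈ T, p) ≠ 0 := Finset.prod_ne_zero_iff.2 fun p hp => (hprop p hp).2.ne_zero
  have hmax : T.max' hne ≤ w ^ 2 := (hprop _ (T.max'_mem hne)).1.2
  have hmem : ∀ p : ℕ, p.Prime → p ∣ ∏ p ∈ T, p → p ∈ T := by
    intro p hp hd
    obtain ⟨q, hq, hpq⟩ := (Prime.dvd_finsetProd_iff hp.prime _).1 hd
    have := (Nat.prime_dvd_prime_iff_eq hp (hprop q hq).2).1 hpq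
    rw [this]; exact hq
  ext e
  simp only [mem_filter, Nat.mem_divisors, mem_insert]
  constructor
  · rintro ⟨⟨hd, _⟩, hle⟩
    by_cases h1 : e = 1
    · left; exact h1
    · right
      obtain ⟨p, hp, hpe⟩ := Nat.exists_prime_and_dvd h1
      obtain ⟨e', rfl⟩ := hpe
      have hpT := hmem p hp ((Dvd.intro _ rfl).trans hd)
      by_cases h2 : e' = 1
      · rw [h2, mul_one]; exact hpT
      · exfalso
        obtain ⟨q, hq, hqe⟩ := Nat.exists_prime_and_dvd h2
        have hqT := hmem q hq ((hqe.mul_left p).trans hd)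
        have h3 := (hprop p hpT).1.1
        have h4 := (hprop q hqT).1.1
        have he0 : 0 < e' := by
          rcases Nat.eq_zero_or_pos e' with h | h
          · subst h
            rw [mul_zero] at hd
            exact absurd (Nat.eq_zero_of_zero_dvd hd) hm0
          · exact h
        have h5 : q ≤ e' := Nat.le_of_dvd he0 hqe
        have h6 : w ^ 2 < p * e' := by
          calc w ^ 2 = w * w := sq w
            _ < p * q := Nat.mul_lt_mul'' h3 h4
            _ ≤ p * e' := Nat.mul_le_mul_left _ h5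
        omega
  · rintro (rfl | h)
    · refine ⟨⟨one_dvd _, hm0⟩, ?_⟩
      exact (hprop _ (T.max'_mem hne)).2.one_lt.le
    · exact ⟨⟨Finset.dvd_prod_of_mem _ h, hm0⟩, T.le_max' e h⟩




/-! ### the density statement for both conventions -/

open Classical in
theorem density (F : ℕ → ℕ → ℕ) (c : ℕ → Prop)
    (hF : ∀ m d, F m d ≤ ∑ e ∈ m.divisors with e ≤ d, e)
    (hlarge : ∃ N₀, ∀ N ≥ N₀, ∃ m, ∃ d ∈ m.divisors, c d ∧ N = F m d) (η : ℝ) (hη : 0 < η) :
    ∃ ε : ℝ, 0 < ε ∧ ∃ X : ℕ, ∀ x ≥ X, (1 - η) * (x : ℝ) ≤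
      (((Ioc 0 x).filter (fun N => (∃ m, ∃ d ∈ m.divisors, c d ∧ N = F m d) ∧
        ε * (N : ℝ) < (sInf {m | ∃ d ∈ m.divisors, c d ∧ N = F m d} : ℕ))).card : ℝ) := by
  obtain ⟨N₀, hN₀⟩ := hlarge
  set C : ℝ := Z * (W * W) with hC
  have hC0 : 0 ≤ C := mul_nonneg Z_nonneg (mul_nonneg W_nonneg W_nonneg)
  set ε : ℝ := min 1 (η / (2 * (C + 1))) with hε
  have hε0 : 0 < ε := lt_min one_pos (by positivity)
  have hε1 : ε ≤ 1 := min_le_left _ _
  have hCε : ε * (C * ε) ≤ η / 2 := by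
    have h1 : C * ε ≤ η / 2 := by
      calc C * ε ≤ C * (η / (2 * (C + 1))) := mul_le_mul_of_nonneg_left (min_le_right _ _) hC0
        _ ≤ η / 2 := by
          rw [mul_div_assoc', div_le_div_iff₀ (by positivity) (by norm_num)]
          nlinarith
    calc ε * (C * ε) ≤ 1 * (C * ε) := mul_le_mul_of_nonneg_right hε1 (by positivity)
      _ = C * ε := one_mul _
      _ ≤ η / 2 := h1
  refine ⟨ε, hε0, ⌈2 * (N₀ : ℝ) / η⌉₊, fun x hx => ?_⟩
  have hxR : 2 * (N₀ : ℝ) / η ≤ x := (Nat.le_ceil _).trans (by exact_mod_cast hx)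
  have hxN : (N₀ : ℝ) ≤ η / 2 * x := by
    rw [div_le_iff₀ hη] at hxR
    linarith
  set g : ℕ → ℕ := fun N => sInf {m | ∃ d ∈ m.divisors, c d ∧ N = F m d} with hg
  set good : ℕ → Prop := fun N => ∃ m, ∃ d ∈ m.divisors, c d ∧ N = F m d with hgood
  have hspec : ∀ N, N₀ ≤ N → ∃ d ∈ (g N).divisors, c d ∧ N = F (g N) d := fun N hN =>
    Nat.sInf_mem (s := {m | ∃ d ∈ m.divisors, c d ∧ N = F m d}) (hN₀ N hN)
  choose! D hD1 hD2 hD3 using hspec
  set S : Finset ℕ := (Ioc 0 x).filter (fun N => N₀ ≤ N ∧ (g N : ℝ) ≤ ε * N) with hS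
  have hSm : ∀ N ∈ S, (0 < N ∧ N ≤ x) ∧ N₀ ≤ N ∧ (g N : ℝ) ≤ ε * N := by
    intro N hN
    simpa [hS] using hN
  have hScard : (S.card : ℝ) ≤ ε * (C * (ε * x)) := by
    refine count_pairs ε hε0 x S g D (fun N hN => hD1 N (hSm N hN).2.1)
      (fun N hN => ?_) ?_ (fun N hN => (hSm N hN).1.2) (fun N hN => (hSm N hN).2.2)
    · conv_lhs => rw [hD3 N (hSm N hN).2.1]
      exact hF _ _
    · intro N hN N' hN' h
      simp only [Prod.mk.injEq] at h
      rw [hD3 N (hSm N hN).2.1, hD3 N' (hSm N' hN').2.1, h.1, h.2]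
  have hcover : Ioc 0 x ⊆ (Ioc 0 x).filter (fun N => good N ∧ ε * (N : ℝ) < (g N : ℕ)) ∪
      (range N₀ ∪ S) := by
    intro N hN
    simp only [mem_union, mem_filter, mem_range, hS]
    by_cases h1 : N < N₀
    · right; left; exact h1
    · by_cases h2 : (g N : ℝ) ≤ ε * N
      · right; right; exact ⟨hN, by omega, h2⟩
      · left; exact ⟨hN, hN₀ N (by omega), lt_of_not_ge h2⟩
  have hcard : (x : ℝ) ≤ (((Ioc 0 x).filter (fun N => good N ∧ ε * (N : ℝ) < (g N : ℕ))).card : ℝ) +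
      (N₀ + S.card) := by
    have h1 := (Finset.card_le_card hcover).trans (Finset.card_union_le _ _)
    have h2 := Finset.card_union_le (range N₀) S
    rw [Finset.card_range] at h2
    rw [Nat.card_Ioc] at h1
    have h3 : x ≤ ((Ioc 0 x).filter (fun N => good N ∧ ε * (N : ℝ) < (g N : ℕ))).card +
      (N₀ + S.card) := by omega
    exact_mod_cast h3
  have hx0 : (0 : ℝ) ≤ x := by positivity
  have h5 : ε * (C * (ε * x)) ≤ η / 2 * x := by
    have := mul_le_mul_of_nonneg_right hCε hx0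
    calc ε * (C * (ε * x)) = ε * (C * ε) * x := by ring
      _ ≤ _ := this
  have h6 : (1 - η) * (x : ℝ) = x - η / 2 * x - η / 2 * x := by ring
  rw [h6]
  linarith

/-- every large `n` is an initial divisor sum (divisors `≥ 1`) -/
theorem large_init : ∃ N₀ : ℕ, ∀ n ≥ N₀, ∃ m : ℕ, ∃ d ∈ m.divisors, 1 < d ∧
    n = ∑ e ∈ m.divisors with e ≤ d, e := by
  obtain ⟨N₀, h⟩ := large_sub
  refine ⟨N₀ + 2, fun n hn => ?_⟩
  obtain ⟨w, hw, T, hT, hs⟩ := h (n - 1) (by omega)
  have hne : T.Nonempty := by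
    rw [Finset.nonempty_iff_ne_empty]
    rintro rfl
    simp at hs
    omega
  have hfil := filter_divisors hT hne
  have h1 : 1 ∉ T := fun h1 => by
    have := (mem_pr.1 (hT h1)).2
    exact Nat.not_prime_one this
  have hmaxT := T.max'_mem hne
  have hmaxmem : T.max' hne ∈ (∏ p ∈ T, p).divisors := by
    have : T.max' hne ∈ (∏ p ∈ T, p).divisors.filter (fun e => e ≤ T.max' hne) := by
      rw [hfil]; exact Finset.mem_insert_of_mem hmaxT
    exact (mem_filter.1 this).1
  refine ⟨∏ p ∈ T, p, T.max' hne, hmaxmem, (mem_pr.1 (hT hmaxT)).2.one_lt, ?_⟩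
  rw [hfil, Finset.sum_insert h1, hs]
  omega

/-- the sum of the divisors `e` with `1 < e ≤ d` plus one is the sum of those with `e ≤ d` -/
theorem sum_gt_one (m d : ℕ) (hd : d ∈ m.divisors) :
    ∑ e ∈ m.divisors with e ≤ d, e = 1 + ∑ e ∈ m.divisors with 1 < e ∧ e ≤ d, e := by
  have hm0 : m ≠ 0 := (Nat.mem_divisors.1 hd).2
  have hd0 : 0 < d := Nat.pos_of_mem_divisors hd
  have : m.divisors.filter (fun e => e ≤ d) =
      insert 1 (m.divisors.filter (fun e => 1 < e ∧ e ≤ d)) := by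
    ext e
    simp only [mem_filter, mem_insert, Nat.mem_divisors]
    constructor
    · rintro ⟨⟨h1, h2⟩, h3⟩
      have := Nat.pos_of_dvd_of_pos h1 (Nat.pos_of_ne_zero hm0)
      by_cases h4 : e = 1
      · left; exact h4
      · right; exact ⟨⟨h1, h2⟩, by omega, h3⟩
    · rintro (rfl | ⟨h1, h2, h3⟩)
      · exact ⟨⟨one_dvd _, hm0⟩, hd0⟩
      · exact ⟨h1, h3⟩
  rw [this, Finset.sum_insert (by simp)]


end Pool.Agent.Helper954.InitSum
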